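import Pool.Agent.Q282.PA.TopCone

set_option autoImplicit false

/-! # The global topological zeta function times the Bernstein-Sato polynomial, for products of powers of
# forms over ideals

Let `g t j ∈ ℂ[x]`, `t ∈ T`, be generators of ideals `I_t ≠ 0`, let `F_t = ∑_j y_{t,j} g t j`, where the
`y_{t,j}` are further variables, separate for each `t` (`blockForm`), and let `f = ∏ t, F_t ^ a t`
(`powProd`). Let `Y` be a log resolution of the product of the `I_t` with `a t > 0`, with the components
`E_i`, `i ∈ I`, let `k i` be the multiplicity of `E_i` in the relative canonical divisor and `m i t` the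
order of `I_t` along `E_i`. Then `Y` times the space of the `y` is an embedded resolution of `f`, with
the components `E_i`, of multiplicity `N_i = ∑ t, a t * m i t` (and `ν_i = k i + 1`), and, for `a t > 0`,
the strict transform of `F_t = 0`, of multiplicity `a t` (and `ν = 1`): `mulR`, `nuR`. The global
topological zeta function is `Z = topZ (nuR k T) (mulR a m) χ`, the sum over the sets `J` of components of
`χ J ∏_{i ∈ J} 1 / (N_i s + ν_i)`, where `χ J` is the Euler characteristic of the stratum `E_J°`.

*New.* (A) If `b(s) f ^ s = P(s) f ^ (s + 1)`, then `b` is divisible by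
`∏ t, ∏_{i < a t} (a t s + i + 1)`, and the quotient `b'` satisfies a functional equation of the product of
the powers of the ideals (`Mu.pow_quot`). A Rees divisor of the product of the ideals gives a root of
`b'` (starting library `Y228.RR`), so that it adds one to the multiplicities of the roots which come
from the strict transforms. (B) Let the `g t j` be forms of degree `d t`, for each `t` with `a t > 0`
without common zeros but the origin. Then the blowing-up of the origin is a resolution as above,
with one component `E = ℙ ^ (n - 1)`, `ν = n`, `N = ∑ t, a t * d t`, and `E` is a Rees divisor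
(`cone_reesH`), because `ℂ[x]` is a finite module over `ℂ[g t j]`, so that a derivation of `ℂ[x]` which
kills the `g t j` is zero and `n` of the forms have a nonzero Jacobian determinant (`Jac.jac`). The
strata with nonzero Euler characteristic are those which are contained in all strict transforms
and in `E`, with Euler characteristic `n`; so `Z = n / (N s + n) ∏ t, 1 / (a t s + 1)` (`coneZ`). -/

namespace Pool.Agent.Results.MP_504089_ag.FormsOverIdeals

open Pool.Agent.H628R4.TP Pool.Agent.TH192.DT Pool.Agent.Y231.RF Pool.Agent.Y228.RR
  Pool.Agent.Q282.PA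

/-- `b(s) Z(s)` is a polynomial: every pole of `Z` is a root of `b`, of at least its order. -/
def Cancels (b : Polynomial ℂ) (Z : RatFunc ℂ) : Prop :=
  ∃ p : Polynomial ℂ, algebraMap (Polynomial ℂ) (RatFunc ℂ) b * Z =
    algebraMap (Polynomial ℂ) (RatFunc ℂ) p

/-- (1) Let `Z = topZ (nuR k T) (mulR a m) χ` be the global topological zeta function of
`f = ∏ t, F_t ^ a t`, `F_t = ∑_j y_{t,j} g t j`, computed on the resolution described above. Suppose that
the numbers `-ν_i / N_i` of the components `E_i`, `N_i > 0`, which occur in a stratum with `χ J ≠ 0`,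
come from Rees divisors (`FromRees`), and that no two `E_i` with the same number `-ν_i / N_i` occur in
one such stratum (`Distinct`). Then `b(s) Z(s)` is a polynomial for every `b` with
`b(s) f ^ s = P(s) f ^ (s + 1)`: every pole of `Z` is a root of `b`, of at least its order. The
strict transforms may coincide with each other and with the `E_i`.

(2) Let the `g t j` be forms of degree `d t` in `n ≥ 1` variables such that, for each `t` with
`a t > 0`, the ideal which they generate contains a power of each variable (`PrimaryC`). Then every
such `b` is divisible by `(N s + n) ∏ t, ∏_{i < a t} (a t s + i + 1)`, `N = ∑ t, a t * d t` (`coneFactor`),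
and `b(s) Z(s)` is a polynomial for `Z = n / (N s + n) ∏ t, 1 / (a t s + 1)` (`coneZ`), the global
topological zeta function of `f`. -/
theorem result :
    (∀ {σ T I : Type} [Fintype σ] [DecidableEq σ] [Fintype T] [DecidableEq T] [Fintype I]
      {κ : T → Type} [∀ t, Fintype (κ t)] [∀ t, DecidableEq (κ t)]
      (g : (t : T) → κ t → MvPolynomial σ ℂ) (_ : ∀ t, ∃ j, g t j ≠ 0) (a : T → ℕ)
      (k : I → ℕ) (m : I → T → ℕ) (χ : Finset (I ⊕ T) → ℤ) (_ : Distinct a k m χ)
      (_ : ∀ i, 0 < ∑ t, a t * m i t → (∃ J, χ J ≠ 0 ∧ Sum.inl i ∈ J) →
        FromRees g a 1 (k i + 1) (∑ t, a t * m i t))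
      (b : Polynomial ℂ) (_ : IsBFunction (powProd a g) b),
      Cancels b (topZ (nuR k T) (mulR a m) χ)) ∧
    ∀ {σ T : Type} [Fintype σ] [DecidableEq σ] [Nonempty σ] [Fintype T] [DecidableEq T]
      {κ : T → Type} [∀ t, Fintype (κ t)] [∀ t, DecidableEq (κ t)]
      (g : (t : T) → κ t → MvPolynomial σ ℂ) (_ : ∀ t, ∃ j, g t j ≠ 0) (d : T → ℕ)
      (_ : ∀ t j, (g t j).IsHomogeneous (d t)) (a : T → ℕ) (_ : PrimaryC g a)
      (b : Polynomial ℂ) (_ : IsBFunction (powProd a g) b),
      coneFactor (Fintype.card σ) a d ∣ b ∧ Cancels b (coneZ (Fintype.card σ) a d) := by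
  refine ⟨?_, ?_⟩
  · intro σ T I _ _ _ _ _ κ _ _ g hg a k m χ hd hE b hb
    exact top_global_order g hg a k m χ hd hE b hb
  · intro σ T _ _ _ _ _ κ _ _ g hg d hd a hp b hb
    have h := cone_global g hg d hd a hp b hb
    exact ⟨h, poly_of_dvd _ Fintype.card_pos a d b h⟩

end Pool.Agent.Results.MP_504089_ag.FormsOverIdeals
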