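import Pool.Agent.Q300.LM.Glob
import Pool.Agent.Q300.LM.Top

/-!
# The topological strong monodromy conjecture for finitely many stably sparse singularities

Let `f ∈ ℂ[x_1, …, x_n]` be nonconstant such that `{f = 0}` has only finitely many points where all
partial derivatives of `f` vanish, and such that the germ of `f` at each of them is stably sparse: for
some `κ` the germ of `f(p + x) + y_1 z_1 + ⋯ + y_κ z_κ` becomes, in suitable FORMAL coordinates and up to a
unit factor, a polynomial `∑_j c_j X ^ (v j)` with affinely independent exponents (for instance simple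
singularities, Brieskorn-Pham and invertible polynomials in suitable formal coordinates). Then every
pole of the global topological zeta function of `f` is a root of the Bernstein-Sato polynomial of `f`.

Method. (1) The motivic zeta function of `f` is in `𝓜[T, 1 / (1 - 𝕃 ^ a T ^ b)]_{(a, b) ∈ S}` with roots `a / b`
of the Bernstein-Sato polynomial (`Pool.Agent.Q300.LM.global`). (2) If the motivic zeta function is
in this ring, then the poles of the topological zeta function are among the `a / b`
(`Pool.Agent.Q300.LM.top_of_mot`). This is not obvious, as the numerators need not be divisible by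
powers of `𝕃 - 1`: with `v = 𝕃 ^ (-1)` and the numerator `P` one has, in the localisation at the kernel of
the Euler characteristic, `P(v ^ s) = (1 - v) ^ M w_s` for all large `s`, and the finite differences of
order `M + 1` of `P(v ^ s)` are divisible by `(1 - v) ^ (M + 1)`; so the Euler characteristic of `w_s` is a
polynomial in `s`.
-/

set_option autoImplicit false

namespace Pool.Agent.Results.MP_504089_ag.StablySparseSingularities

open MvPolynomial Pool.Agent.W428.MOT Pool.Agent.Q300.LM
open Pool.Agent.W375.MG (zetaG good_units)
open Pool.Agent.H628R4.TP (IsBFunction)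
open Pool.Agent.TH192.MU (IsTopZeta)

/-- `p` is a point of `{f = 0}` at which all the partial derivatives of `f` vanish. -/
def Singular {n : ℕ} (f : MvPolynomial (Fin n) ℂ) (p : Fin n → ℂ) : Prop :=
  eval p f = 0 ∧ ∀ j, eval p (pderiv j f) = 0

/-- The strong monodromy conjecture for `f` and the constructible set `W` of origins: every pole of
the topological zeta function (`IsTopZeta`) of the motivic zeta function
`∑_d [X_d] 𝕃 ^ (-n d) T ^ d`, `X_d` the set of the `d`-jets with origin in `W` on which `f` has the order `d`, is
a root of every polynomial `b` with `b(s) f ^ s = P(s) f ^ (s + 1)`, `P(s)` in the Weyl algebra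
(`IsBFunction`). For `W` the whole space it is the global topological zeta function. -/
def StrongTop {R : Type} [CommRing R] (E : MK ℂ →+* R) (ε : R →+* ℂ) {n : ℕ}
    (f : MvPolynomial (Fin n) ℂ) (W : Set (Pt ℂ (Fin n))) : Prop :=
  ∀ Z : RatFunc ℂ, IsTopZeta E ε (zetaG f W {a | a ≠ 0}) Z →
    ∀ s₀ : ℂ, Z.denom.eval s₀ = 0 → ∀ b : Polynomial ℂ, IsBFunction f b → b.eval s₀ = 0

/-- **The strong monodromy conjecture for global topological zeta functions, for `f` with finitely
many singular points, all stably sparse.** -/
theorem result (R : Type) [CommRing R] [IsDomain R] (E : MK ℂ →+* R) (ε : R →+* ℂ)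
    (hε : ε (E ((Lu ℂ : (MK ℂ)ˣ) : MK ℂ)) = 1) (hE : E ((Lu ℂ : (MK ℂ)ˣ) : MK ℂ) ≠ 1)
    {n : ℕ} (f : MvPolynomial (Fin n) ℂ) (hf : f.totalDegree ≠ 0)
    (hfin : {p | Singular f p}.Finite) (h : ∀ p, Singular f p → StablySparseAt f p) :
    ∀ W : Set (Pt ℂ (Fin n)), Constr W → StrongTop E ε f W := by
  intro W hW Z hZ s₀ hs₀ b hb
  obtain ⟨S, hS, hz⟩ := Pool.Agent.Q300.LM.global f hf hfin (fun p h1 h2 => h p ⟨h1, h2⟩)
  obtain ⟨q, hq, rfl⟩ := top_of_mot hε hE (fun q hq => (hS q hq).1) (hz W _ hW good_units) hZ hs₀
  exact (hS q hq).2 b hb

end Pool.Agent.Results.MP_504089_ag.StablySparseSingularities
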