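import Pool.Agent.Q59.TR.TopFin

/-!
# The strong monodromy conjecture, topological version: reduction to trilinear polynomials

Let `f ∈ ℂ[x_1, …, x_n]`. For `κ ≥ κ(f)` the polynomial `f(x) + y_1 z_1 + ⋯ + y_κ z_κ` becomes, by an
automorphism of the polynomial ring, a polynomial `G` of the form `∑ a_{ijk} x_i y_j z_k` with
`x_0 = y_0 = z_0 = 1`. Every pole `s₀ ≠ -1, κ` of the topological zeta function of `f` gives the pole
`s₀ - κ` of the one of `G`, and a functional equation of `f` with `b(s) = (s + 1) c(s)` gives one of `G`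
with `(s + 1) c(s + κ)`. So the strong monodromy conjecture for all polynomials is equivalent to the
conjecture for the trilinear ones.

The topological zeta function is defined as by Denef and Loeser, from the motivic zeta function
`Z_mot(T) = ∑_d [X_d] 𝕃 ^ (-n d) T ^ d` in `𝓜[[T]]`, `X_d` the set of the `d`-jets on which
`f` has the order `d` (`zetaG f Set.univ {a | a ≠ 0}`), `𝓜` the Grothendieck ring of complex varieties,
localised at `𝕃`: `Z_top(s) = χ(Z_mot(𝕃 ^ (-s)))` for `s = 1, 2, 3, …`. For this, let `E` be a homomorphism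
from `𝓜` to a domain `R` with `E(𝕃) ≠ 1`, such as the Hodge-Deligne polynomial `E(u, v)`, and `ε` a
homomorphism from `R` to `ℂ` with `ε(E(𝕃)) = 1`, such as `u, v ↦ 1`, so that `ε ∘ E` is the Euler
characteristic `χ` (`IsTopZeta`).

Method. The new variables are the words `w` in the letters `1, …, n` of length at most the degree of `f`;
the relations `l_w` are `V_{i w} - V_w c_i` and `c_j - x_j`. Modulo the relations `f` is linear in the
words: `f + ∑ q_w l_w = λ`, and `λ + ∑ y_w l_w = f + ∑ (y_w + q_w) l_w` where `x, l` is a system of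
coordinates. The relation of the classes of the jets of `f` and `f + y z` is from the starting library
(`Pool.Agent.Y229.MS`); it gives `χ(W) - Z_{f + y z}(s) = (χ(W) - Z_f(s + 1)) s (s + 2) / (s + 1) ^ 2`
(`W` the set of the origins). No resolution of singularities is used.
-/

set_option autoImplicit false

namespace Pool.Agent.Results.MP_504089_ag.TrilinearReduction

open MvPolynomial Pool.Agent.W375.MG Pool.Agent.W428.MOT Pool.Agent.H628R4.TP Pool.Agent.TH192.MU

/-- The strong monodromy conjecture for `f`: every pole of the global topological zeta function of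
`f` is a root of every polynomial `b` with `b(s) f ^ s = P(s) f ^ (s + 1)`, `P(s)` a differential
operator in the Weyl algebra, polynomial in `s` (`IsBFunction`), that is, of the Bernstein-Sato
polynomial. -/
def StrongTop {R : Type} [CommRing R] (E : MK ℂ →+* R) (ε : R →+* ℂ) {n : ℕ}
    (f : MvPolynomial (Fin n) ℂ) : Prop :=
  ∀ Z : RatFunc ℂ, IsTopZeta E ε (zetaG f Set.univ {a | a ≠ 0}) Z →
    ∀ s₀ : ℂ, Z.denom.eval s₀ = 0 → ∀ b : Polynomial ℂ, IsBFunction f b → b.eval s₀ = 0

/-- `f = ∑ a_{ijk} x_i y_j z_k` with `x_0 = y_0 = z_0 = 1`: the variables can be coloured with three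
colours such that every monomial of `f` is of degree at most one in the variables of each colour. -/
def Trilinear {n : ℕ} (f : MvPolynomial (Fin n) ℂ) : Prop :=
  ∃ col : Fin n → Fin 3, ∀ w ∈ f.support, ∀ g : Fin 3,
    ∑ i ∈ Finset.univ.filter (fun i => col i = g), w i ≤ 1

/-- **Reduction of the strong monodromy conjecture for topological zeta functions to trilinear
polynomials.** -/
theorem result (R : Type) [CommRing R] [IsDomain R] (E : MK ℂ →+* R) (ε : R →+* ℂ)
    (hε : ε (E ((Lu ℂ : (MK ℂ)ˣ) : MK ℂ)) = 1) (hE : E ((Lu ℂ : (MK ℂ)ˣ) : MK ℂ) ≠ 1) :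
    (∀ (n : ℕ) (f : MvPolynomial (Fin n) ℂ), f.totalDegree ≠ 0 → StrongTop E ε f) ↔
    ∀ (n : ℕ) (f : MvPolynomial (Fin n) ℂ), f.totalDegree ≠ 0 → Trilinear f →
      StrongTop E ε f :=
  ⟨fun h _ f hf _ => h _ f hf, fun h _ f hf Z hZ s₀ hs b hb => by
    obtain ⟨i, hi, h2⟩ := Pool.Agent.Q59.TR.topG_transfer hε hE (I := {0}) (Or.inl rfl)
      (fun n f hf hT Z hZ s₀ hs b hb => ⟨0, rfl, by
        rw [Int.cast_zero, add_zero]
        exact h n f hf hT Z hZ s₀ hs b hb⟩) f hf Z hZ s₀ hs b hb
    rw [Set.mem_singleton_iff.1 hi, Int.cast_zero, add_zero] at h2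
    exact h2⟩

end Pool.Agent.Results.MP_504089_ag.TrilinearReduction
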